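import Pool.Agent.H770.GS.Final

set_option autoImplicit false

namespace Pool.Agent.Results.MP_8ad8d2_gt.AllDimensions

open MeasureTheory

/-- The standard Gaussian measure of a subset `A` of a finite dimensional Euclidean space `E`:
the integral over `A` of the density `(2π)^(-dim E / 2) e^(-|x|²/2)`. -/
noncomputable def gaussian {E : Type*} [NormedAddCommGroup E] [InnerProductSpace ℝ E]
    [FiniteDimensional ℝ E] [MeasurableSpace E] [BorelSpace E] (A : Set E) : ℝ :=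
  ∫ x in A, (2 * Real.pi) ^ (-(Module.finrank ℝ E : ℝ) / 2) * Real.exp (-‖x‖ ^ 2 / 2)

/-- The dilate `t Q_n = [-t/2, t/2]^n` of the centred cube of unit volume. -/
def dilate (n : ℕ) (t : ℝ) : Set (EuclideanSpace ℝ (Fin n)) := {x | ∀ i, |x i| ≤ t / 2}

/-- The Gaussian measure `γ_{a^⊥}(t Q_n ∩ a^⊥)`, computed inside the hyperplane `a^⊥`. -/
noncomputable def sectionMeasure (n : ℕ) (t : ℝ) (a : EuclideanSpace ℝ (Fin n)) : ℝ :=
  gaussian {x : ((ℝ ∙ a)ᗮ : Submodule ℝ (EuclideanSpace ℝ (Fin n))) |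
    (x : EuclideanSpace ℝ (Fin n)) ∈ dilate n t}

/-- The set of the values of `a ↦ γ_{a^⊥}(t Q_n ∩ a^⊥)` on the unit sphere. -/
def values (n : ℕ) (t : ℝ) : Set ℝ :=
  {g : ℝ | ∃ a : EuclideanSpace ℝ (Fin n), ‖a‖ = 1 ∧ sectionMeasure n t a = g}

/-- `M_n(t)`: the supremum of `a ↦ γ_{a^⊥}(t Q_n ∩ a^⊥)` over the unit vectors. -/
noncomputable def M (n : ℕ) (t : ℝ) : ℝ := sSup (values n t)

/-- The vector `(1/√2, 1/√2, 0, …, 0)` of `ℝⁿ`. -/
noncomputable def aStar (n : ℕ) : EuclideanSpace ℝ (Fin n) :=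
  WithLp.toLp 2 fun i => if i.val < 2 then 1 / Real.sqrt 2 else 0

/-- The vector `(1, …, 1)/√n` of `ℝⁿ`. -/
noncomputable def diagonal (n : ℕ) : EuclideanSpace ℝ (Fin n) :=
  WithLp.toLp 2 fun _ => 1 / Real.sqrt n

/-- The value `γ_1(√2 t Q_1) γ_{n-2}(t Q_{n-2})` at `aStar n`. -/
noncomputable def starValue (n : ℕ) (t : ℝ) : ℝ :=
  gaussian (dilate 1 (Real.sqrt 2 * t)) * gaussian (dilate (n - 2) t)

/-- The value at `diagonal n`:
`(2π)^(-(n+1)/2) ∫_ℝ (∫_{-t / 2}^{t / 2} cos (s x/√n) e^(-x²/2) dx)ⁿ ds`. -/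
noncomputable def diagonalValue (n : ℕ) (t : ℝ) : ℝ :=
  (2 * Real.pi) ^ (-((n : ℝ) + 1) / 2) * ∫ s : ℝ,
    (∫ x in (-(t / 2))..(t / 2), Real.cos (s * x / Real.sqrt n) * Real.exp (-x ^ 2 / 2)) ^ n

/-- For every dilate `1.253 ≤ t ≤ 3` and every dimension `n ≥ 3`, the supremum `M_n(t)` is
attained, and it is the larger one of the values at `a* = (1, 1, 0, …, 0)/√2` and at
`(1, …, 1)/√n`, for which formulas are given. A unit vector `a` attains `M_n(t)` if and only if
either two of its coordinates have absolute value `1/√2` and the value at `a*` is the larger one,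
or all its coordinates have absolute value `1/√n` and the value at `(1, …, 1)/√n` is the larger
one (both cases occur if the two values agree). Moreover, if the value at `(1, …, 1)/√m` is
larger than the one at `a*` in dimension `m ≥ 3`, then the same holds in all dimensions `n ≥ m`. -/
theorem result (t : ℝ) (ht : 1.253 ≤ t) (ht3 : t ≤ 3) :
    (∀ n : ℕ, 3 ≤ n →
      IsGreatest (values n t) (M n t) ∧
      M n t = max (starValue n t) (diagonalValue n t) ∧
      ‖aStar n‖ = 1 ∧ sectionMeasure n t (aStar n) = starValue n t ∧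
      ‖diagonal n‖ = 1 ∧ sectionMeasure n t (diagonal n) = diagonalValue n t ∧
      ∀ a : EuclideanSpace ℝ (Fin n), ‖a‖ = 1 →
        (sectionMeasure n t a = M n t ↔
          (diagonalValue n t ≤ starValue n t ∧
            ∃ i j, i ≠ j ∧ |a i| = 1 / Real.sqrt 2 ∧ |a j| = 1 / Real.sqrt 2) ∨
          (starValue n t ≤ diagonalValue n t ∧ ∀ i, |a i| = 1 / Real.sqrt n))) ∧
    ∀ m n : ℕ, 3 ≤ m → m ≤ n → starValue m t < diagonalValue m t →
      starValue n t < diagonalValue n t := by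
  obtain ⟨r, hrt⟩ : ∃ r : ℝ, r = t / 2 := ⟨_, rfl⟩
  have hr : 0 < r := by rw [hrt]; linarith
  have hr6 : 0.6265 ≤ r := by rw [hrt]; linarith
  have hr5 : r ≤ 3 / 2 := by rw [hrt]; linarith
  have hM : H770.GS.Main r := H770.GS.main_r hr6 hr5
  have hpi : (0:ℝ) < 2 * Real.pi := by positivity
  have hc : ∀ k : ℕ, (0:ℝ) < (2 * Real.pi) ^ (-((k + 1 : ℕ) : ℝ) / 2) := fun k => by positivity
  have hstar : ∀ k : ℕ, 1 ≤ k → aStar (k + 2) = H770.GS.dirAB k (1 / Real.sqrt 2) 0 := by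
    intro k _
    ext i
    unfold aStar H770.GS.dirAB
    rw [H770.GS.vec_apply]
    obtain ⟨i, hi⟩ := i
    match i, hi with
    | 0, _ => simp
    | 1, _ => simp
    | j + 2, hj =>
      have hj' : j < k := by omega
      simp [hj']
  have hdiag : ∀ k : ℕ, diagonal (k + 2) =
      H770.GS.dirAB k (1 / Real.sqrt (k + 2)) (1 / Real.sqrt (k + 2)) := by
    intro k
    ext i
    rw [H597.TH.dirAB_diag]
    unfold diagonal
    simp
  have hsec : ∀ k : ℕ, ∀ a : EuclideanSpace ℝ (Fin (k + 2)), ‖a‖ = 1 →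
      sectionMeasure (k + 2) t a =
        (2 * Real.pi) ^ (-((k + 1 : ℕ) : ℝ) / 2) * Helper82.GC.Asl r a 0 := by
    intro k a ha
    rw [hrt]
    exact H770.GS.sec_eq_Asl (t / 2) a ha
  have hsv : ∀ k : ℕ, 1 ≤ k → starValue (k + 2) t =
      (2 * Real.pi) ^ (-((k + 1 : ℕ) : ℝ) / 2) * H770.GS.FF r k 0 := by
    intro k hk
    have e1 : gaussian (dilate 1 (Real.sqrt 2 * t)) =
        (Helper82.GC.Zr (Real.sqrt 2 * t / 2) / Real.sqrt (2 * Real.pi)) ^ 1 :=
      Helper82.GC.gam_cube 1 (by linarith [mul_pos (Real.sqrt_pos.2 (zero_lt_two' ℝ)) (show (0:ℝ) < t by linarith)])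
    have e2 : gaussian (dilate (k + 2 - 2) t) =
        (Helper82.GC.Zr (t / 2) / Real.sqrt (2 * Real.pi)) ^ k :=
      Helper82.GC.gam_cube k (by linarith)
    have e0 : Real.sqrt 2 * t / 2 = Real.sqrt 2 * r := by rw [hrt]; ring
    rw [e0] at e1
    rw [← hrt] at e2
    unfold starValue
    rw [e1, e2, H249.TH2.th2 r k hr, pow_one, div_pow,
      div_mul_div_comm]
    have e3 : (2 * Real.pi) ^ (-((k + 1 : ℕ) : ℝ) / 2) =
        1 / (Real.sqrt (2 * Real.pi) * Real.sqrt (2 * Real.pi) ^ k) := by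
      rw [mul_comm (Real.sqrt (2 * Real.pi)), ← pow_succ, Real.sqrt_eq_rpow, ← Real.rpow_natCast,
        ← Real.rpow_mul hpi.le, one_div, ← Real.rpow_neg hpi.le]
      congr 1
      push_cast
      ring
    rw [e3]
    ring
  have hdv : ∀ k : ℕ, 1 ≤ k → diagonalValue (k + 2) t =
      (2 * Real.pi) ^ (-((k + 1 : ℕ) : ℝ) / 2) * H770.GS.FF r k k := by
    intro k hk
    rw [← H770.GS.Asl_Dn hr hk, H597.TH.TH1 r k hr]
    unfold diagonalValue
    rw [← hrt]
    push_cast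
    rfl
  constructor
  · intro n hn
    obtain ⟨k, rfl⟩ : ∃ k, n = k + 2 := ⟨n - 2, by omega⟩
    have hk : 1 ≤ k := by omega
    have n1 : ‖aStar (k + 2)‖ = 1 := by
      rw [hstar k hk]
      exact H770.GS.dirAB_two_norm hk
    have n2 : ‖diagonal (k + 2)‖ = 1 := by
      rw [hdiag k]
      exact H770.GS.dirAB_diag_norm k
    have s1 : sectionMeasure (k + 2) t (aStar (k + 2)) = starValue (k + 2) t := by
      rw [hsec k _ n1, hstar k hk, H770.GS.Asl_D2 hr hk, hsv k hk]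
    have s2 : sectionMeasure (k + 2) t (diagonal (k + 2)) = diagonalValue (k + 2) t := by
      rw [hsec k _ n2, hdiag k, H770.GS.Asl_Dn hr hk, hdv k hk]
    have hgreat : IsGreatest (values (k + 2) t)
        (max (starValue (k + 2) t) (diagonalValue (k + 2) t)) := by
      constructor
      · rcases max_choice (starValue (k + 2) t) (diagonalValue (k + 2) t) with h | h
        · rw [h]
          exact ⟨_, n1, s1⟩
        · rw [h]
          exact ⟨_, n2, s2⟩
      · rintro g ⟨c, hc1, rfl⟩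
        rw [hsec k c hc1, hsv k hk, hdv k hk, ← mul_max_of_nonneg _ _ (hc k).le,
          ← H770.GS.Asl_D2 hr hk, ← H770.GS.Asl_Dn hr hk]
        exact mul_le_mul_of_nonneg_left (hM k hk c hc1) (hc k).le
    have hMe : M (k + 2) t = max (starValue (k + 2) t) (diagonalValue (k + 2) t) :=
      hgreat.csSup_eq
    rw [hMe]
    refine ⟨hgreat, rfl, n1, s1, n2, s2, fun a ha => ?_⟩
    have hu := H770.GS.uniq_main hr6 hr5 hk (fun θ hθ => by
      rw [← H770.GS.Asl_D2 hr hk, ← H770.GS.Asl_Dn hr hk]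
      exact hM k hk θ hθ) a ha
    have hcast : ((k + 2 : ℕ) : ℝ) = (k : ℝ) + 2 := by push_cast; ring
    rw [hsec k a ha, hsv k hk, hdv k hk, ← mul_max_of_nonneg _ _ (hc k).le, hcast]
    constructor
    · intro h
      rcases hu.1 (mul_left_cancel₀ (hc k).ne' h) with h1 | h1
      · exact Or.inl ⟨mul_le_mul_of_nonneg_left h1.1 (hc k).le, h1.2⟩
      · exact Or.inr ⟨mul_le_mul_of_nonneg_left h1.1 (hc k).le, h1.2⟩
    · intro h
      rw [hu.2 (h.imp (fun h1 => ⟨le_of_mul_le_mul_left h1.1 (hc k), h1.2⟩)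
        (fun h1 => ⟨le_of_mul_le_mul_left h1.1 (hc k), h1.2⟩))]
  · intro m n hm hmn h
    obtain ⟨k, rfl⟩ : ∃ k, m = k + 2 := ⟨m - 2, by omega⟩
    obtain ⟨l, rfl⟩ : ∃ l, n = l + 2 := ⟨n - 2, by omega⟩
    have hk : 1 ≤ k := by omega
    have hkl : k ≤ l := by omega
    rw [hsv k hk, hdv k hk] at h
    rw [hsv l (by omega), hdv l (by omega)]
    exact mul_lt_mul_of_pos_left
      (H770.GS.order_le hr hM hk hkl (lt_of_mul_lt_mul_left h (hc k).le)) (hc l)

end Pool.Agent.Results.MP_8ad8d2_gt.AllDimensions
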