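import Pool.Agent.H770.GS.Res3

set_option autoImplicit false

namespace Pool.Agent.Results.MP_8ad8d2_gt.DimensionThree

open MeasureTheory

/-- The standard Gaussian measure of a subset `A` of a finite dimensional Euclidean space `E`:
the integral over `A` of the density `(2π)^(-dim E / 2) e^(-|x|²/2)`. -/
noncomputable def gaussian {E : Type*} [NormedAddCommGroup E] [InnerProductSpace ℝ E]
    [FiniteDimensional ℝ E] [MeasurableSpace E] [BorelSpace E] (A : Set E) : ℝ :=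
  ∫ x in A, (2 * Real.pi) ^ (-(Module.finrank ℝ E : ℝ) / 2) * Real.exp (-‖x‖ ^ 2 / 2)

/-- The dilate `t Q_k = [-t/2, t/2]^k` of the centred cube of unit volume. -/
def dilate (k : ℕ) (t : ℝ) : Set (EuclideanSpace ℝ (Fin k)) := {x | ∀ i, |x i| ≤ t / 2}

/-- The Gaussian measure `γ_{a^⊥}(t Q_n ∩ a^⊥)`, computed inside the hyperplane `a^⊥`. -/
noncomputable def sectionMeasure (n : ℕ) (t : ℝ) (a : EuclideanSpace ℝ (Fin n)) : ℝ :=
  gaussian {x : ((ℝ ∙ a)ᗮ : Submodule ℝ (EuclideanSpace ℝ (Fin n))) |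
    (x : EuclideanSpace ℝ (Fin n)) ∈ dilate n t}

/-- The set of the values of `a ↦ γ_{a^⊥}(t Q_n ∩ a^⊥)` on the unit sphere. -/
def values (n : ℕ) (t : ℝ) : Set ℝ :=
  {g : ℝ | ∃ a : EuclideanSpace ℝ (Fin n), ‖a‖ = 1 ∧ sectionMeasure n t a = g}

/-- `M_n(t)`: the supremum of `γ_{a^⊥}(t Q_n ∩ a^⊥)` over the unit vectors `a`. -/
noncomputable def M (n : ℕ) (t : ℝ) : ℝ := sSup (values n t)

/-- `γ_1([-t/√2, t/√2]) γ_1([-t/2, t/2])`, the Gaussian measure of a rectangle. -/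
noncomputable def rectangle (t : ℝ) : ℝ :=
  gaussian (dilate 1 (Real.sqrt 2 * t)) * gaussian (dilate 1 t)

/-- The Gaussian measure of the regular hexagon with inradius `√(3/2) t/2`, in polar form:
`(2π)⁻¹ 6√3 ∫_0^{t/2} e^(-3s²/4) ∫_{-s/2}^{s/2} e^(-p²) dp ds`. -/
noncomputable def hexagon (t : ℝ) : ℝ :=
  (2 * Real.pi)⁻¹ * (6 * Real.sqrt 3 * ∫ s in (0 : ℝ)..(t / 2),
    Real.exp (-(3 * s ^ 2 / 4)) * ∫ p in (-(s / 2))..(s / 2), Real.exp (-p ^ 2))

/-- The full answer to Q1 in dimension three, for every dilate `t > 0`.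
There is a threshold `t₃ > 2` such that
(1) for every `t > 0`, `M_3(t)` is the greatest value of a section;
(2) for `0 < t ≤ t₃`, `M_3(t) = γ_1([-t/√2, t/√2]) γ_1([-t/2, t/2])`;
(3) for `t ≥ t₃`, `M_3(t)` is the Gaussian measure of a regular hexagon, an explicit integral;
(4) the two expressions agree only at `t₃`: the first is larger below and smaller above;
(5) a unit vector `a` attains `M_3(t)` iff either `t ≤ t₃` and two coordinates of `a` have
absolute value `1/√2`, or `t ≥ t₃` and all three coordinates have absolute value `1/√3`. -/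
theorem result : ∃ t₃ : ℝ, 2 < t₃ ∧
    (∀ t, 0 < t → IsGreatest (values 3 t) (M 3 t)) ∧
    (∀ t, 0 < t → t ≤ t₃ → M 3 t = rectangle t) ∧
    (∀ t, t₃ ≤ t → M 3 t = hexagon t) ∧
    (∀ t, 0 < t → t < t₃ → hexagon t < rectangle t) ∧
    (∀ t, t₃ < t → rectangle t < hexagon t) ∧
    (∀ t, 0 < t → ∀ a : EuclideanSpace ℝ (Fin 3), ‖a‖ = 1 →
      (sectionMeasure 3 t a = M 3 t ↔
        (t ≤ t₃ ∧ ∃ i j, i ≠ j ∧ |a i| = 1 / Real.sqrt 2 ∧ |a j| = 1 / Real.sqrt 2) ∨
        (t₃ ≤ t ∧ ∀ i, |a i| = 1 / Real.sqrt 3))) := by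
  obtain ⟨r3, h1, hlt, hgt, heq, hmain⟩ := H770.GS.main3
  have hpi : (0 : ℝ) < (2 * Real.pi)⁻¹ := by have := Real.pi_pos; positivity
  have hsec : ∀ (t : ℝ) (a : EuclideanSpace ℝ (Fin 3)), ‖a‖ = 1 →
      sectionMeasure 3 t a = (2 * Real.pi)⁻¹ * Helper82.GC.Asl (t / 2) a 0 :=
    fun t a ha => H770.GS.sec3_eq (t / 2) a ha
  have hrect : ∀ t, 0 < t → rectangle t = (2 * Real.pi)⁻¹ * H770.GS.V2 (t / 2) := by
    intro t ht
    have e1 : gaussian (dilate 1 (Real.sqrt 2 * t)) =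
        (Helper82.GC.Zr (Real.sqrt 2 * t / 2) / Real.sqrt (2 * Real.pi)) ^ 1 :=
      Helper82.GC.gam_cube 1 (by positivity)
    have e2 : gaussian (dilate 1 t) = (Helper82.GC.Zr (t / 2) / Real.sqrt (2 * Real.pi)) ^ 1 :=
      Helper82.GC.gam_cube 1 (by positivity)
    unfold rectangle
    rw [e1, e2, H770.GS.V2_eq (by positivity), pow_one, pow_one, div_mul_div_comm,
      Real.mul_self_sqrt (by positivity), show Real.sqrt 2 * t / 2 = Real.sqrt 2 * (t / 2) by ring]
    have e3 : (∫ u in (-(Real.sqrt 2 * (t / 2)))..(Real.sqrt 2 * (t / 2)), H770.GS.W u) =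
        Helper82.GC.Zr (Real.sqrt 2 * (t / 2)) := rfl
    rw [e3]
    ring
  have hhex : ∀ t, 0 < t → hexagon t = (2 * Real.pi)⁻¹ * H770.GS.V3 (t / 2) := by
    intro t ht
    rw [H770.GS.V3_eq (by positivity)]
    rfl
  have hgreat : ∀ t, 0 < t → IsGreatest (values 3 t)
      ((2 * Real.pi)⁻¹ * max (H770.GS.V2 (t / 2)) (H770.GS.V3 (t / 2))) := by
    intro t ht
    constructor
    · rcases max_choice (H770.GS.V2 (t / 2)) (H770.GS.V3 (t / 2)) with h | h
      · rw [h]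
        exact ⟨H770.GS.dirTwo, H770.GS.fam_norm _, hsec _ _ (H770.GS.fam_norm _)⟩
      · rw [h]
        exact ⟨H770.GS.dirThree, H770.GS.fam_norm _, hsec _ _ (H770.GS.fam_norm _)⟩
    · rintro g ⟨a, ha, rfl⟩
      rw [hsec t a ha]
      exact mul_le_mul_of_nonneg_left (hmain (t / 2) (by positivity) a ha).1 hpi.le
  have hM : ∀ t, 0 < t → M 3 t =
      (2 * Real.pi)⁻¹ * max (H770.GS.V2 (t / 2)) (H770.GS.V3 (t / 2)) :=
    fun t ht => (hgreat t ht).csSup_eq
  refine ⟨2 * r3, by linarith, ?_, ?_, ?_, ?_, ?_, ?_⟩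
  · intro t ht
    rw [hM t ht]
    exact hgreat t ht
  · intro t ht htt
    rw [hM t ht, hrect t ht, max_eq_left]
    rcases eq_or_lt_of_le htt with h | h
    · rw [h, show 2 * r3 / 2 = r3 by ring, heq]
    · exact (hlt (t / 2) (by positivity) (by linarith)).le
  · intro t htt
    have ht : 0 < t := by linarith
    rw [hM t ht, hhex t ht, max_eq_right]
    rcases eq_or_lt_of_le htt with h | h
    · rw [← h, show 2 * r3 / 2 = r3 by ring, heq]
    · exact (hgt (t / 2) (by linarith)).le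
  · intro t ht htt
    rw [hrect t ht, hhex t ht]
    exact mul_lt_mul_of_pos_left (hlt (t / 2) (by positivity) (by linarith)) hpi
  · intro t htt
    have ht : 0 < t := by linarith
    rw [hrect t ht, hhex t ht]
    exact mul_lt_mul_of_pos_left (hgt (t / 2) (by linarith)) hpi
  · intro t ht a ha
    rw [hM t ht, hsec t a ha]
    have h2 := (hmain (t / 2) (by positivity) a ha).2
    have h3 : t / 2 ≤ r3 ↔ t ≤ 2 * r3 := by constructor <;> intro h <;> linarith
    have h4 : r3 ≤ t / 2 ↔ 2 * r3 ≤ t := by constructor <;> intro h <;> linarith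
    rw [h3, h4] at h2
    rw [← h2]
    constructor
    · intro h
      exact mul_left_cancel₀ hpi.ne' h
    · intro h
      rw [h]

end Pool.Agent.Results.MP_8ad8d2_gt.DimensionThree
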