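import Pool.Agent.H770.GS.TLall

set_option autoImplicit false

namespace Pool.Agent.Results.MP_8ad8d2_gt.TwoValues

open MeasureTheory

/-- The standard Gaussian measure of a subset `A` of a finite dimensional Euclidean space `E`:
the integral over `A` of the density `(2π)^(-dim E / 2) e^(-|x|²/2)`. -/
noncomputable def gaussian {E : Type*} [NormedAddCommGroup E] [InnerProductSpace ℝ E]
    [FiniteDimensional ℝ E] [MeasurableSpace E] [BorelSpace E] (A : Set E) : ℝ :=
  ∫ x in A, (2 * Real.pi) ^ (-(Module.finrank ℝ E : ℝ) / 2) * Real.exp (-‖x‖ ^ 2 / 2)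

/-- The dilate `t Q_n = [-t/2, t/2]^n` of the centred cube of unit volume. -/
def dilate (n : ℕ) (t : ℝ) : Set (EuclideanSpace ℝ (Fin n)) := {x | ∀ i, |x i| ≤ t / 2}

/-- The Gaussian measure `γ_{a^⊥}(t Q_n ∩ a^⊥)`, computed inside the hyperplane `a^⊥`. -/
noncomputable def sectionMeasure (n : ℕ) (t : ℝ) (a : EuclideanSpace ℝ (Fin n)) : ℝ :=
  gaussian {x : ((ℝ ∙ a)ᗮ : Submodule ℝ (EuclideanSpace ℝ (Fin n))) |
    (x : EuclideanSpace ℝ (Fin n)) ∈ dilate n t}

/-- The set of the values of `a ↦ γ_{a^⊥}(t Q_n ∩ a^⊥)` on the unit sphere. -/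
def values (n : ℕ) (t : ℝ) : Set ℝ :=
  {g : ℝ | ∃ a : EuclideanSpace ℝ (Fin n), ‖a‖ = 1 ∧ sectionMeasure n t a = g}

/-- `M_n(t)`: the supremum of `γ_{a^⊥}(t Q_n ∩ a^⊥)` over the unit vectors `a`. -/
noncomputable def M (n : ℕ) (t : ℝ) : ℝ := sSup (values n t)

/-- The vector `(α, α, β, …, β)` of `ℝⁿ`. -/
noncomputable def twoValues (n : ℕ) (α β : ℝ) : EuclideanSpace ℝ (Fin n) :=
  WithLp.toLp 2 fun i => if i.val < 2 then α else β

/-- For every dimension `n ≥ 2` and every dilate `t > 0`, the supremum `M_n(t)` is attained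
at a unit vector of the form `(α, α, β, …, β)` with `0 ≤ β ≤ α`. -/
theorem result (n : ℕ) (hn : 2 ≤ n) (t : ℝ) (ht : 0 < t) :
    IsGreatest (values n t) (M n t) ∧ ∃ α β : ℝ, 0 ≤ β ∧ β ≤ α ∧ ‖twoValues n α β‖ = 1 ∧
      sectionMeasure n t (twoValues n α β) = M n t := by
  obtain ⟨k, rfl⟩ : ∃ k, n = k + 2 := ⟨n - 2, by omega⟩
  have hr : 0 < t / 2 := by positivity
  obtain ⟨a, b, hb, hab, hsum, hmax, -⟩ := H770.GS.exists_ab_all k hr
  have hvec : twoValues (k + 2) a b = H770.GS.dirAB k a b := by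
    ext i
    unfold twoValues H770.GS.dirAB
    rw [H770.GS.vec_apply]
    obtain ⟨i, hi⟩ := i
    match i, hi with
    | 0, _ => simp
    | 1, _ => simp
    | j + 2, hj =>
      have hj' : j < k := by omega
      simp [hj']
  have hnorm : ‖twoValues (k + 2) a b‖ = 1 := by
    rw [hvec]
    refine H770.GS.vec_norm (by simp) ?_
    simp only [List.map_cons, List.sum_cons, List.map_replicate, List.sum_replicate,
      nsmul_eq_mul]
    linarith
  have hsec : ∀ a : EuclideanSpace ℝ (Fin (k + 2)), ‖a‖ = 1 →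
      sectionMeasure (k + 2) t a =
        (2 * Real.pi) ^ (-((k + 1 : ℕ) : ℝ) / 2) * Helper82.GC.Asl (t / 2) a 0 :=
    fun a ha => H770.GS.sec_eq_Asl (t / 2) a ha
  have hc : 0 ≤ (2 * Real.pi) ^ (-((k + 1 : ℕ) : ℝ) / 2) := by positivity
  have hgreat : IsGreatest (values (k + 2) t) (sectionMeasure (k + 2) t (twoValues (k + 2) a b)) := by
    constructor
    · exact ⟨_, hnorm, rfl⟩
    · rintro g ⟨c, hc1, rfl⟩
      rw [hsec c hc1, hsec _ hnorm, hvec]
      exact mul_le_mul_of_nonneg_left (hmax c hc1) hc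
  have hM : M (k + 2) t = sectionMeasure (k + 2) t (twoValues (k + 2) a b) := hgreat.csSup_eq
  rw [hM]
  exact ⟨hgreat, a, b, hb, hab, hnorm, rfl⟩

end Pool.Agent.Results.MP_8ad8d2_gt.TwoValues
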